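import Mathlib
import Pool.Agent.TH775.AC.Stmts

set_option autoImplicit false

namespace Pool.Agent.TH775.AC

open Complex Metric Set

namespace PosP

/-- the function `p` -/
noncomputable def p (l : ℂ → ℂ) (z : ℂ) : ℂ := 1 + z * deriv l z

theorem diff_p {α : ℝ} {l : ℂ → ℂ} (h : ML α l) : DifferentiableOn ℂ (p l) (ball 0 1) := by
  have h1 := h.dl.deriv isOpen_ball
  unfold p
  exact (differentiableOn_const _).add (differentiableOn_id.mul h1)

theorem hasDeriv_p {α : ℝ} {l : ℂ → ℂ} (h : ML α l) {z : ℂ} (hz : z ∈ ball (0 : ℂ) 1) :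
    HasDerivAt (p l) (deriv (p l) z) z :=
  ((diff_p h).differentiableAt (isOpen_ball.mem_nhds hz)).hasDerivAt

theorem ne_p {α : ℝ} {l : ℂ → ℂ} (h : ML α l) {z : ℂ} (hz : z ∈ ball (0 : ℂ) 1) : p l z ≠ 0 :=
  h.pne z hz

theorem pos_P {α : ℝ} {l : ℂ → ℂ} (h : ML α l) {z : ℂ} (hz : z ∈ ball (0 : ℂ) 1) :
    0 < (p l z + (α : ℂ) * (z * deriv (p l) z) / p l z).re := h.pos z hz

end PosP

open PosP

theorem a_of (hH : S_HP) : S_A := by
  intro α l hα h z hz
  change 0 < (p l z).re
  have hy : ∀ z ∈ ball (0 : ℂ) 1, HasDerivAt (fun z => (p l z)⁻¹)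
      (-deriv (p l) z / (p l z) ^ 2) z := fun z hz => (hasDeriv_p h hz).inv (ne_p h hz)
  have h1 : 0 < ((p l z)⁻¹).re := by
    refine hH (fun z => (p l z)⁻¹) 1 one_pos
      (fun z hz => (hy z hz).differentiableAt.differentiableWithinAt) (by simp [p]) ?_ z hz
    intro z hz hz0 hre k hk hd
    have hp := ne_p h hz
    have h2 := pos_P h hz
    rw [(hy z hz).deriv] at hd
    set η : ℝ := ((p l z)⁻¹).im with hη
    have h3 : z * deriv (p l) z = (p l z) ^ 2 * ((k * (1 ^ 2 + η ^ 2) / (2 * 1) : ℝ) : ℂ) := by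
      have h4 : z * (-deriv (p l) z / (p l z) ^ 2) * (p l z) ^ 2 = -(z * deriv (p l) z) := by
        field_simp
      rw [hd] at h4
      push_cast at h4 ⊢
      linear_combination h4
    have h5 : (p l z).re = 0 := by
      have h6 : p l z = ((p l z)⁻¹)⁻¹ := (inv_inv _).symm
      rw [h6, Complex.inv_re, hre, zero_div]
    have h7 : p l z + (α : ℂ) * (z * deriv (p l) z) / p l z =
        ((1 + α * (k * (1 ^ 2 + η ^ 2) / (2 * 1)) : ℝ) : ℂ) * p l z := by
      rw [h3]
      push_cast
      field_simp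
    rw [h7, Complex.re_ofReal_mul, h5, mul_zero] at h2
    exact lt_irrefl _ h2
  rw [Complex.inv_re] at h1
  by_contra hc
  push Not at hc
  have := div_nonpos_of_nonpos_of_nonneg hc (Complex.normSq_nonneg (p l z))
  linarith

theorem b_of (hH : S_HP) (hA : S_A) : S_B := by
  intro α l hα h z hz
  have hpos : ∀ z ∈ ball (0 : ℂ) 1, 0 < (p l z).re := hA α l hα h
  have hl : ∀ z ∈ ball (0 : ℂ) 1, HasDerivAt l (deriv l z) z := fun z hz =>
    (h.dl.differentiableAt (isOpen_ball.mem_nhds hz)).hasDerivAt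
  have hV : ∀ z ∈ ball (0 : ℂ) 1, HasDerivAt
      (fun z => ((α : ℂ) * Complex.log (p l z) + l z) / 2)
      (((α : ℂ) * (deriv (p l) z / p l z) + deriv l z) / 2) z := fun z hz =>
    ((((hasDeriv_p h hz).clog (Or.inl (hpos z hz))).const_mul _).add (hl z hz)).div_const _
  have hv : ∀ z ∈ ball (0 : ℂ) 1, HasDerivAt
      (fun z => Complex.exp (((α : ℂ) * Complex.log (p l z) + l z) / 2) - 1 / 2)
      (Complex.exp (((α : ℂ) * Complex.log (p l z) + l z) / 2) *
        (((α : ℂ) * (deriv (p l) z / p l z) + deriv l z) / 2)) z := fun z hz =>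
    ((hV z hz).cexp).sub_const _
  have h1 : 0 < (Complex.exp (((α : ℂ) * Complex.log (p l z) + l z) / 2) - 1 / 2).re := by
    refine hH (fun z => Complex.exp (((α : ℂ) * Complex.log (p l z) + l z) / 2) - 1 / 2) (1 / 2)
      (by norm_num) (fun z hz => (hv z hz).differentiableAt.differentiableWithinAt) ?_ ?_ z hz
    · simp [p, h.l0]
      norm_num
    intro z hz hz0 hre k hk hd
    rw [(hv z hz).deriv] at hd
    have h2 := pos_P h hz
    have hp := ne_p h hz
    set v : ℂ := Complex.exp (((α : ℂ) * Complex.log (p l z) + l z) / 2) with hvdef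
    have hv0 : v ≠ 0 := Complex.exp_ne_zero _
    have hvre : v.re = 1 / 2 := by
      have : (v - 1 / 2).re = v.re - 1 / 2 := by simp
      rw [this] at hre
      linarith
    have him : (v - 1 / 2).im = v.im := by simp
    rw [him] at hd
    have h3 : v * (v - 1) = ((-((1 / 2) ^ 2 + v.im ^ 2) : ℝ) : ℂ) := by
      have h3' : v = 1 / 2 + (v.im : ℂ) * Complex.I := by
        apply Complex.ext
        · simp [hvre]
        · simp
      push_cast
      linear_combination (v + 1 / 2 + (v.im : ℂ) * Complex.I - 1) * h3' +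
        (v.im : ℂ) ^ 2 * Complex.I_sq
    have h4 : ((-(k * ((1 / 2) ^ 2 + v.im ^ 2) / (2 * (1 / 2))) : ℝ) : ℂ)
        = k * (v * (v - 1)) := by
      rw [h3]
      push_cast
      ring
    rw [h4] at hd
    have h5 : p l z + (α : ℂ) * (z * deriv (p l) z) / p l z = 1 + 2 * k * (v - 1) := by
      have h6 : v * (p l z + (α : ℂ) * (z * deriv (p l) z) / p l z - 1) =
          v * (2 * k * (v - 1)) := by
        have h7 : z * (v * (((α : ℂ) * (deriv (p l) z / p l z) + deriv l z) / 2)) * 2 =
            v * (p l z + (α : ℂ) * (z * deriv (p l) z) / p l z - 1) := by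
          have h8 : z * deriv l z = p l z - 1 := by unfold p; ring
          calc _ = v * ((α : ℂ) * (z * deriv (p l) z) / p l z + z * deriv l z) := by ring
            _ = _ := by rw [h8]; ring
        rw [← h7, hd]
        ring
      have h9 := mul_left_cancel₀ hv0 h6
      linear_combination h9
    rw [h5] at h2
    have h10 : (1 + 2 * (k : ℂ) * (v - 1)).re = 1 - k := by
      simp [hvre]
      ring
    rw [h10] at h2
    linarith
  have h11 : (Complex.exp (((α : ℂ) * Complex.log (p l z) + l z) / 2) - 1 / 2).re =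
      (Complex.exp (((α : ℂ) * Complex.log (p l z) + l z) / 2)).re - 1 / 2 := by simp
  rw [h11] at h1
  change 1 / 2 < (Complex.exp (((α : ℂ) * Complex.log (p l z) + l z) / 2)).re
  linarith

end Pool.Agent.TH775.AC
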